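import Mathlib

/-!
# Fitting height, and groups `𝔽_p[H]^m ⋊ H`
-/

set_option autoImplicit false
set_option linter.style.haveILetI false

open scoped BigOperators Classical

namespace Pool.Agent.Q99.FH

/-- The Fitting subgroup: the subgroup generated by all the nilpotent normal subgroups. -/
def Fit (G : Type) [Group G] : Subgroup G :=
  sSup {N : Subgroup G | N.Normal ∧ Group.IsNilpotent N}

instance Fit_normal (G : Type) [Group G] : (Fit G).Normal :=
  Subgroup.sSup_normal _ fun _ h => h.1

/-- Dividing out the Fitting subgroup `n` times leads to the trivial group. -/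
def HeightLE : ℕ → (G : Type) → [Group G] → Prop
  | 0, G, _ => Subsingleton G
  | n + 1, G, _ => HeightLE n (G ⧸ Fit G)

/-- The Fitting height. -/
noncomputable def fitHeight (G : Type) [Group G] : ℕ := sInf {n | HeightLE n G}

theorem Fit_map {G H : Type} [Group G] [Group H] (e : G ≃* H) :
    (Fit G).map e.toMonoidHom = Fit H := by
  have key : ∀ {G H : Type} [Group G] [Group H] (e : G ≃* H), (Fit G).map e.toMonoidHom ≤ Fit H := by
    intro G H _ _ e
    rw [Subgroup.map_le_iff_le_comap, Fit]
    apply sSup_le
    rintro N ⟨hN, hnil⟩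
    rw [← Subgroup.map_le_iff_le_comap]
    apply le_sSup
    refine ⟨hN.map _ e.surjective, ?_⟩
    haveI := hnil
    exact Group.nilpotent_of_surjective (e.toMonoidHom.subgroupMap N)
      (e.toMonoidHom.subgroupMap_surjective N)
  apply le_antisymm (key e)
  have h1 := key e.symm
  intro x hx
  have h2 : e.symm x ∈ Fit G := h1 ⟨x, hx, rfl⟩
  exact ⟨e.symm x, h2, e.apply_symm_apply x⟩

theorem HeightLE.congr {n : ℕ} : ∀ {G H : Type} [Group G] [Group H] (_ : G ≃* H),
    HeightLE n G → HeightLE n H := by
  induction n with
  | zero =>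
    intro G H _ _ e h
    have h' : Subsingleton G := h
    exact e.symm.toEquiv.subsingleton
  | succ n ih =>
    intro G H _ _ e h
    exact ih (QuotientGroup.congr (Fit G) (Fit H) e (Fit_map e)) h

theorem heightLE_of_subsingleton (n : ℕ) : ∀ (G : Type) [Group G] [Subsingleton G],
    HeightLE n G := by
  induction n with
  | zero => intro G _ h; exact h
  | succ n ih =>
    intro G _ _
    exact ih (G ⧸ Fit G)

section ext

variable (p m : ℕ) (H : Type) [Group H]

/-- The module: `m` copies of the regular module over `ℤ/p`. -/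
abbrev Mod : Type := Fin m → H → ZMod p

/-- The action of `h` on the module. -/
def act (h : H) : Mod p m H →ₗ[ZMod p] Mod p m H where
  toFun f i x := f i (h⁻¹ * x)
  map_add' _ _ := rfl
  map_smul' _ _ := rfl

theorem act_apply (h : H) (f : Mod p m H) (i : Fin m) (x : H) : act p m H h f i x = f i (h⁻¹ * x) :=
  rfl

theorem act_one : act p m H 1 = 1 := by
  apply LinearMap.ext; intro f; funext i x
  rw [act_apply, inv_one, one_mul]; rfl

theorem act_mul (h k : H) : act p m H (h * k) = act p m H h * act p m H k := by
  apply LinearMap.ext; intro f; funext i x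
  rw [Module.End.mul_apply, act_apply, act_apply, act_apply, mul_inv_rev, mul_assoc]

theorem act_pow (h : H) (n : ℕ) : act p m H (h ^ n) = act p m H h ^ n := by
  induction n with
  | zero => rw [pow_zero, pow_zero, act_one]
  | succ n ih => rw [pow_succ, act_mul, ih, pow_succ]

/-- The action as a homomorphism to the automorphism group. -/
def phi : H →* MulAut (Multiplicative (Mod p m H)) where
  toFun h :=
    { toFun := fun f => Multiplicative.ofAdd (act p m H h f.toAdd)
      invFun := fun f => Multiplicative.ofAdd (act p m H h⁻¹ f.toAdd)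
      left_inv := fun f => by
        change Multiplicative.ofAdd (act p m H h⁻¹ (act p m H h f.toAdd)) = f
        rw [← Module.End.mul_apply, ← act_mul, inv_mul_cancel, act_one]; rfl
      right_inv := fun f => by
        change Multiplicative.ofAdd (act p m H h (act p m H h⁻¹ f.toAdd)) = f
        rw [← Module.End.mul_apply, ← act_mul, mul_inv_cancel, act_one]; rfl
      map_mul' := fun f g => by
        change Multiplicative.ofAdd (act p m H h (f.toAdd + g.toAdd)) = _
        rw [map_add]; rfl }
  map_one' := by
    apply MulEquiv.ext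
    intro f
    change Multiplicative.ofAdd (act p m H 1 f.toAdd) = f
    rw [act_one]; rfl
  map_mul' h k := by
    apply MulEquiv.ext
    intro f
    change Multiplicative.ofAdd (act p m H (h * k) f.toAdd) = _
    rw [act_mul]; rfl

/-- The extension. -/
abbrev Ex : Type := Multiplicative (Mod p m H) ⋊[phi p m H] H

variable {p m H}

/-- The element of the normal subgroup given by `f`. -/
def tr (f : Mod p m H) : Ex p m H := SemidirectProduct.inl (Multiplicative.ofAdd f)

theorem tr_inj {f g : Mod p m H} (h : tr f = tr g) : f = g := by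
  have := SemidirectProduct.inl_injective h
  exact this

theorem tr_mul (f g : Mod p m H) : tr f * tr g = tr (f + g) := by
  unfold tr
  rw [← map_mul]; rfl

theorem tr_inv (f : Mod p m H) : (tr f)⁻¹ = tr (-f) := by
  unfold tr
  rw [← map_inv]; rfl

theorem tr_zero : tr (0 : Mod p m H) = 1 := map_one _

theorem conj_tr (x : Ex p m H) (f : Mod p m H) : x * tr f * x⁻¹ = tr (act p m H x.right f) := by
  obtain ⟨n, h⟩ := x
  have e1 : (⟨n, h⟩ : Ex p m H) = SemidirectProduct.inl n * SemidirectProduct.inr h :=
    SemidirectProduct.mk_eq_inl_mul_inr h n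
  have e2 : SemidirectProduct.inr h * tr f * (SemidirectProduct.inr h)⁻¹ =
      (tr (act p m H h f) : Ex p m H) := by
    unfold tr
    rw [← map_inv, ← SemidirectProduct.inl_aut (φ := phi p m H) h (Multiplicative.ofAdd f)]; rfl
  have e3 : (SemidirectProduct.inl n : Ex p m H) = tr n.toAdd := rfl
  rw [e1, mul_inv_rev]
  have : (SemidirectProduct.inl n * SemidirectProduct.inr h * tr f *
      ((SemidirectProduct.inr h)⁻¹ * (SemidirectProduct.inl n)⁻¹) : Ex p m H) =
      SemidirectProduct.inl n * (SemidirectProduct.inr h * tr f * (SemidirectProduct.inr h)⁻¹) *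
        (SemidirectProduct.inl n)⁻¹ := by group
  rw [this, e2, e3, tr_inv, tr_mul, tr_mul]
  have e4 : (tr n.toAdd * SemidirectProduct.inr h : Ex p m H).right = h := by
    rw [SemidirectProduct.mul_right]
    change 1 * h = h
    rw [one_mul]
  rw [e4]
  congr 1
  abel

theorem comm_tr (x : Ex p m H) (f : Mod p m H) :
    tr f * x * (tr f)⁻¹ * x⁻¹ = tr ((1 - act p m H x.right) f) := by
  have : tr f * x * (tr f)⁻¹ * x⁻¹ = tr f * (x * (tr f)⁻¹ * x⁻¹) := by group
  rw [this, tr_inv, conj_tr, tr_mul, LinearMap.sub_apply, Module.End.one_apply, map_neg,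
    sub_eq_add_neg]

theorem act_inj (hp : 1 < p) (hm : 0 < m) {h : H} (e : act p m H h = 1) : h = 1 := by
  haveI : Fact (1 < p) := ⟨hp⟩
  let f : Mod p m H := fun _ x => if x = 1 then 1 else 0
  have h1 := congrFun (congrFun (LinearMap.congr_fun e f) ⟨0, hm⟩) h
  rw [act_apply, inv_mul_cancel] at h1
  change (if (1 : H) = 1 then (1 : ZMod p) else 0) = if h = 1 then 1 else 0 at h1
  rw [if_pos rfl] at h1
  by_contra hne
  rw [if_neg hne] at h1
  exact one_ne_zero h1

/-- The Fitting subgroup of the extension. -/
theorem fit_ex [hp : Fact p.Prime] [Finite H] (hm : 0 < m) (hH : Nat.Coprime p (Nat.card H)) :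
    Fit (Ex p m H) = (SemidirectProduct.rightHom : Ex p m H →* H).ker := by
  apply le_antisymm
  · apply sSup_le
    rintro K ⟨hK, hnil⟩ x hx
    rw [MonoidHom.mem_ker]
    change x.right = 1
    obtain ⟨n, hn⟩ := (Subgroup.isNilpotent_iff_lowerCentralSeries K).mp hnil
    -- iterated commutators
    have h1 : ∀ (k : ℕ) (f : Mod p m H), tr (((1 - act p m H x.right) ^ (k + 1)) f) ∈
        K.lowerCentralSeries k := by
      intro k
      induction k with
      | zero =>
        intro f
        rw [zero_add, pow_one, ← comm_tr, Subgroup.lowerCentralSeries_zero]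
        exact K.mul_mem (hK.conj_mem x hx (tr f)) (K.inv_mem hx)
      | succ k ih =>
        intro f
        rw [pow_succ', Module.End.mul_apply, ← comm_tr, Subgroup.lowerCentralSeries_succ]
        exact Subgroup.commutator_mem_commutator (ih f) hx
    have h2 : ∀ k, n ≤ k → (1 - act p m H x.right) ^ (k + 1) = 0 := by
      intro k hk
      have h3 : (1 - act p m H x.right) ^ (n + 1) = 0 := by
        apply LinearMap.ext
        intro f
        have := h1 n f
        rw [hn, Subgroup.mem_bot, ← tr_zero] at this
        exact tr_inj this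
      obtain ⟨d, rfl⟩ := Nat.exists_eq_add_of_le hk
      rw [show n + d + 1 = n + 1 + d by ring, pow_add, h3, zero_mul]
    have h4 : (1 - act p m H x.right) ^ p ^ (n + 1) = 0 := by
      have h5 : n + 1 < p ^ (n + 1) := Nat.lt_pow_self hp.out.one_lt
      obtain ⟨k, hk⟩ : ∃ k, p ^ (n + 1) = k + 1 := ⟨p ^ (n + 1) - 1, by omega⟩
      rw [hk]
      exact h2 k (by omega)
    haveI : CharP (Module.End (ZMod p) (Mod p m H)) p := by
      haveI : Nonempty (Fin m) := ⟨⟨0, hm⟩⟩
      exact charP_of_injective_algebraMap
        (FaithfulSMul.algebraMap_injective (ZMod p) (Module.End (ZMod p) (Mod p m H))) p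
    rw [sub_pow_char_pow_of_commute p (n + 1) (Commute.one_left _), one_pow, ← act_pow,
      sub_eq_zero] at h4
    have h5 : x.right ^ p ^ (n + 1) = 1 := act_inj hp.out.one_lt hm h4.symm
    have h6 : orderOf x.right ∣ p ^ (n + 1) := orderOf_dvd_of_pow_eq_one h5
    have h7 : orderOf x.right ∣ Nat.card H := orderOf_dvd_natCard _
    have h8 : orderOf x.right = 1 :=
      Nat.eq_one_of_dvd_coprimes (Nat.Coprime.pow_left (n + 1) hH) h6 h7
    exact orderOf_eq_one_iff.mp h8
  · apply le_sSup
    refine ⟨inferInstance, ?_⟩
    rw [← SemidirectProduct.range_inl_eq_ker_rightHom]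
    haveI : Group.IsNilpotent (Multiplicative (Mod p m H)) := inferInstance
    exact Group.nilpotent_of_surjective
      (SemidirectProduct.inl : Multiplicative (Mod p m H) →* Ex p m H).rangeRestrict
      (MonoidHom.rangeRestrict_surjective _)

theorem heightLE_ex [hp : Fact p.Prime] [Finite H] (hm : 0 < m) (hH : Nat.Coprime p (Nat.card H))
    (n : ℕ) : HeightLE (n + 1) (Ex p m H) ↔ HeightLE n H := by
  have e : (Ex p m H ⧸ Fit (Ex p m H)) ≃* H :=
    (QuotientGroup.quotientMulEquivOfEq (fit_ex hm hH)).trans
      (QuotientGroup.quotientKerEquivOfSurjective _ SemidirectProduct.rightHom_surjective)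
  exact ⟨fun h => HeightLE.congr (n := n) e h, fun h => HeightLE.congr (n := n) e.symm h⟩

instance finite_ex [hp : Fact p.Prime] [Finite H] : Finite (Ex p m H) := by
  haveI : Finite (Multiplicative (Mod p m H)) := inferInstanceAs (Finite (Mod p m H))
  exact Finite.of_injective (fun x : Ex p m H => (x.left, x.right)) (fun x y h =>
    SemidirectProduct.ext (congrArg Prod.fst h) (congrArg Prod.snd h))

theorem nontrivial_ex [hp : Fact p.Prime] (hm : 0 < m) : Nontrivial (Ex p m H) := by
  refine ⟨1, tr fun _ _ => 1, ?_⟩
  intro h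
  rw [← tr_zero] at h
  have := congrFun (congrFun (tr_inj h) ⟨0, hm⟩) 1
  exact zero_ne_one this

theorem solvable_ex [Group.IsSolvable H] : Group.IsSolvable (Ex p m H) := by
  apply Group.isSolvable_of_ker_le_range (SemidirectProduct.inl (φ := phi p m H))
    SemidirectProduct.rightHom
  rw [SemidirectProduct.range_inl_eq_ker_rightHom]

end ext

/-- Solvable groups of every Fitting height. -/
theorem exists_height (k : ℕ) : ∃ (H : Type) (_ : Group H), Finite H ∧ Group.IsSolvable H ∧
    ∀ n, HeightLE n H ↔ k ≤ n := by
  induction k with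
  | zero =>
    refine ⟨Unit, inferInstance, inferInstance, inferInstance, fun n => ?_⟩
    exact ⟨fun _ => Nat.zero_le n, fun _ => heightLE_of_subsingleton n Unit⟩
  | succ k ih =>
    obtain ⟨H, _, hfin, hsol, hH⟩ := ih
    obtain ⟨p, hle, hp⟩ := Nat.exists_infinite_primes (Nat.card H + 1)
    haveI : Fact p.Prime := ⟨hp⟩
    have hco : Nat.Coprime p (Nat.card H) := by
      rw [hp.coprime_iff_not_dvd]
      intro h
      have := Nat.le_of_dvd Nat.card_pos h
      omega
    haveI := hsol
    refine ⟨Ex p 1 H, inferInstance, inferInstance, solvable_ex, fun n => ?_⟩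
    rcases n with _ | n
    · constructor
      · intro h
        have h' : Subsingleton (Ex p 1 H) := h
        haveI := nontrivial_ex (p := p) (m := 1) (H := H) one_pos
        exact absurd h' (not_subsingleton _)
      · intro h; omega
    · rw [heightLE_ex one_pos hco, hH]
      omega

end Pool.Agent.Q99.FH
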